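import Pool.Agent.G9.Stmts

/-! Row EMP of squad GNI. -/

set_option autoImplicit false

namespace Pool.Agent.GNI.H71

open Pool.Agent.G9

theorem emp_aux {V : Type} {G : SimpleGraph V} (hN : NoEven G) (l k : ℕ) (h2 : 2 ≤ k) (h5 : k ≤ 5)
    (hd : l ∣ 2 * k) (hl : ¬ l ∣ 2) : CycT l G = ∅ := by
  rw [Set.eq_empty_iff_forall_notMem]
  rintro v ⟨hinj, hadj⟩
  refine hN k h2 h5 (fun i : ℕ => v (i : ZMod l)) ?_ ?_ ?_
  · intro i
    have h0 : ((2 * k : ℕ) : ZMod l) = 0 := (ZMod.natCast_eq_zero_iff _ _).2 hd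
    rw [Nat.cast_add, h0, add_zero]
  · intro i
    rw [Nat.cast_add, Nat.cast_one]
    exact hadj _
  · intro i h
    have h1 := hinj h
    rw [Nat.cast_add] at h1
    have h3 : ((2 : ℕ) : ZMod l) = 0 := by
      have := left_eq_add.1 h1
      exact this
    exact hl ((ZMod.natCast_eq_zero_iff _ _).1 h3)

theorem emp : EmpStmt := by
  intro V G hN
  refine ⟨emp_aux hN 3 3 ?_ ?_ ?_ ?_, emp_aux hN 4 2 ?_ ?_ ?_ ?_, emp_aux hN 5 5 ?_ ?_ ?_ ?_,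
    emp_aux hN 6 3 ?_ ?_ ?_ ?_, emp_aux hN 8 4 ?_ ?_ ?_ ?_, emp_aux hN 10 5 ?_ ?_ ?_ ?_⟩ <;> decide

end Pool.Agent.GNI.H71
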