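import Mathlib

/-! Auxiliary facts on uniform random colourings (squad GNI). -/

set_option autoImplicit false

namespace Pool.Agent.GNI.H71

open Finset

theorem rnd_markov {Ω : Type} [Fintype Ω] [Nonempty Ω] (f : Ω → ℝ) (a : ℝ) (h : ∀ w, 0 ≤ f w)
    (s : ∑ w, f w ≤ Fintype.card Ω * a) :
    3 * (univ.filter (fun w => 3 * a < f w)).card < Fintype.card Ω := by
  have hN : 0 < Fintype.card Ω := Fintype.card_pos
  have hN' : (0 : ℝ) < Fintype.card Ω := by exact_mod_cast hN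
  have ha : 0 ≤ a := by
    have h0 : 0 ≤ ∑ w, f w := Finset.sum_nonneg (fun w _ => h w)
    by_contra hlt
    push Not at hlt
    nlinarith
  rcases (univ.filter (fun w => 3 * a < f w)).eq_empty_or_nonempty with he | hne
  · rw [he]; simpa using hN
  · have h1 : ∑ w ∈ univ.filter (fun w => 3 * a < f w), (3 * a) <
        ∑ w ∈ univ.filter (fun w => 3 * a < f w), f w :=
      Finset.sum_lt_sum_of_nonempty hne (fun w hw => (Finset.mem_filter.1 hw).2)
    have h2 : ∑ w ∈ univ.filter (fun w => 3 * a < f w), f w ≤ ∑ w, f w :=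
      Finset.sum_le_sum_of_subset_of_nonneg (Finset.filter_subset _ _) (fun w _ _ => h w)
    rw [Finset.sum_const, nsmul_eq_mul] at h1
    have h3 : (((univ.filter (fun w => 3 * a < f w)).card : ℕ) : ℝ) * (3 * a) <
        Fintype.card Ω * a := by linarith
    have ha' : 0 < a := by
      rcases ha.lt_or_eq with h | h
      · exact h
      · rw [← h] at h3; simp at h3
    have h4 : (3 : ℝ) * (((univ.filter (fun w => 3 * a < f w)).card : ℕ) : ℝ) <
        Fintype.card Ω := by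
      by_contra hc
      push Not at hc
      nlinarith
    exact_mod_cast h4

theorem rnd_three {Ω : Type} [Fintype Ω] [Nonempty Ω] (f1 f2 f3 : Ω → ℝ) (a1 a2 a3 : ℝ)
    (h1 : ∀ w, 0 ≤ f1 w) (h2 : ∀ w, 0 ≤ f2 w) (h3 : ∀ w, 0 ≤ f3 w)
    (s1 : ∑ w, f1 w ≤ Fintype.card Ω * a1) (s2 : ∑ w, f2 w ≤ Fintype.card Ω * a2)
    (s3 : ∑ w, f3 w ≤ Fintype.card Ω * a3) :
    ∃ w, f1 w ≤ 3 * a1 ∧ f2 w ≤ 3 * a2 ∧ f3 w ≤ 3 * a3 := by
  classical
  have m1 := rnd_markov f1 a1 h1 s1
  have m2 := rnd_markov f2 a2 h2 s2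
  have m3 := rnd_markov f3 a3 h3 s3
  by_contra hcon
  push Not at hcon
  have hsub : (univ : Finset Ω) ⊆ univ.filter (fun w => 3 * a1 < f1 w) ∪
      (univ.filter (fun w => 3 * a2 < f2 w) ∪ univ.filter (fun w => 3 * a3 < f3 w)) := by
    intro w _
    simp only [Finset.mem_union, Finset.mem_filter, Finset.mem_univ, true_and]
    by_cases c1 : f1 w ≤ 3 * a1
    · by_cases c2 : f2 w ≤ 3 * a2
      · exact Or.inr (Or.inr (hcon w c1 c2))
      · exact Or.inr (Or.inl (not_le.1 c2))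
    · exact Or.inl (not_le.1 c1)
  have hc := Finset.card_le_card hsub
  have hu1 := Finset.card_union_le (univ.filter (fun w => 3 * a1 < f1 w))
    (univ.filter (fun w => 3 * a2 < f2 w) ∪ univ.filter (fun w => 3 * a3 < f3 w))
  have hu2 := Finset.card_union_le (univ.filter (fun w => 3 * a2 < f2 w))
    (univ.filter (fun w => 3 * a3 < f3 w))
  rw [Finset.card_univ] at hc
  omega

theorem rnd_swap {E : Type} [Fintype E] [DecidableEq E] (K : ℕ) (g : E → Fin K → ℝ) :
    ∑ ω : E → Fin K, ∏ e, g e (ω e) = ∏ e, ∑ c, g e c := by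
  rw [Finset.prod_univ_sum, Fintype.piFinset_univ]

theorem rnd_prob {E : Type} [Fintype E] [DecidableEq E] (K : ℕ) [NeZero K] (t : Finset E) :
    ∑ ω : E → Fin K, (if t ⊆ univ.filter (fun e => ω e = 0) then (1 : ℝ) else 0) =
      (Fintype.card (E → Fin K) : ℝ) / (K : ℝ) ^ t.card := by
  have hK : (K : ℝ) ≠ 0 := Nat.cast_ne_zero.2 (NeZero.ne K)
  have e1 : ∀ ω : E → Fin K, (if t ⊆ univ.filter (fun e => ω e = 0) then (1 : ℝ) else 0) =
      ∏ e, (if e ∈ t then (if ω e = 0 then (1 : ℝ) else 0) else 1) := by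
    intro ω
    split_ifs with h
    · symm
      apply Finset.prod_eq_one
      intro e _
      by_cases he : e ∈ t
      · have := (Finset.mem_filter.1 (h he)).2
        simp [he, this]
      · simp [he]
    · obtain ⟨e, he, hne⟩ := Finset.not_subset.1 h
      symm
      apply Finset.prod_eq_zero (Finset.mem_univ e)
      have : ω e ≠ 0 := by
        intro h0
        exact hne (Finset.mem_filter.2 ⟨Finset.mem_univ _, h0⟩)
      simp [he, this]
  rw [Finset.sum_congr rfl (fun ω _ => e1 ω)]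
  rw [rnd_swap K (fun e c => if e ∈ t then (if c = 0 then (1 : ℝ) else 0) else 1)]
  have e2 : ∀ e : E, ∑ c : Fin K, (if e ∈ t then (if c = 0 then (1 : ℝ) else 0) else 1) =
      if e ∈ t then 1 else (K : ℝ) := by
    intro e
    by_cases he : e ∈ t
    · simp [he]
    · simp [he]
  rw [Finset.prod_congr rfl (fun e _ => e2 e)]
  rw [eq_div_iff (pow_ne_zero _ hK)]
  have e3 : (K : ℝ) ^ t.card = ∏ e, (if e ∈ t then (K : ℝ) else 1) := by
    rw [Finset.prod_ite_mem]
    simp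
  rw [e3, ← Finset.prod_mul_distrib]
  have e4 : ∀ e : E, (if e ∈ t then (1 : ℝ) else (K : ℝ)) * (if e ∈ t then (K : ℝ) else 1) = K := by
    intro e
    split_ifs <;> ring
  rw [Finset.prod_congr rfl (fun e _ => e4 e)]
  simp

theorem rnd_fac (K : ℕ) [NeZero K] (a : ℝ) (ha : |a| ≤ 1) :
    ∑ c : Fin K, Real.exp (-(((if c = 0 then (1 : ℝ) else 0) - 1 / K) * a)) ≤
      K * Real.exp (a ^ 2 / K) := by
  have hK1 : (1 : ℝ) ≤ K := by
    have : 1 ≤ K := Nat.one_le_iff_ne_zero.2 (NeZero.ne K)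
    exact_mod_cast this
  have hK0 : (0 : ℝ) < K := by linarith
  set p : ℝ := 1 / K with hp
  have hp0 : 0 < p := by positivity
  have hp1 : p ≤ 1 := by rw [hp, div_le_one hK0]; exact hK1
  have hKp : (K : ℝ) * p = 1 := by rw [hp]; field_simp
  have e1 : ∀ c : Fin K, Real.exp (-(((if c = 0 then (1 : ℝ) else 0) - p) * a)) =
      Real.exp (p * a) + (if c = 0 then (Real.exp (-((1 - p) * a)) - Real.exp (p * a)) else 0) := by
    intro c
    split_ifs with h
    · ring
    · rw [add_zero]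
      congr 1
      ring
  rw [Finset.sum_congr rfl (fun c _ => e1 c), Finset.sum_add_distrib, Finset.sum_const,
    Finset.card_univ, Fintype.card_fin, nsmul_eq_mul, Finset.sum_ite_eq']
  simp only [Finset.mem_univ, if_true]
  obtain ⟨ha1, ha2⟩ := abs_le.1 ha
  have b1 : |p * a| ≤ 1 := by
    rw [abs_mul, abs_of_pos hp0]
    nlinarith [abs_nonneg a]
  have b2 : |-((1 - p) * a)| ≤ 1 := by
    rw [abs_neg, abs_mul, abs_of_nonneg (by linarith : (0 : ℝ) ≤ 1 - p)]
    nlinarith [abs_nonneg a]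
  have c1 := (abs_le.1 (Real.abs_exp_sub_one_sub_id_le b1)).2
  have c2 := (abs_le.1 (Real.abs_exp_sub_one_sub_id_le b2)).2
  have c3 : 1 + p * a ^ 2 ≤ Real.exp (a ^ 2 / K) := by
    have := Real.add_one_le_exp (a ^ 2 / K)
    have h2 : a ^ 2 / K = p * a ^ 2 := by rw [hp]; ring
    linarith
  have d1 : Real.exp (p * a) ≤ 1 + p * a + (p * a) ^ 2 := by linarith
  have d2 : Real.exp (-((1 - p) * a)) ≤ 1 - (1 - p) * a + ((1 - p) * a) ^ 2 := by
    have : (-((1 - p) * a)) ^ 2 = ((1 - p) * a) ^ 2 := by ring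
    linarith
  have hKm : (0 : ℝ) ≤ K - 1 := by linarith
  have f1 : (K : ℝ) * Real.exp (p * a) + (Real.exp (-((1 - p) * a)) - Real.exp (p * a)) =
      (K - 1) * Real.exp (p * a) + Real.exp (-((1 - p) * a)) := by ring
  rw [f1]
  have f2 : (K - 1) * Real.exp (p * a) ≤ (K - 1) * (1 + p * a + (p * a) ^ 2) :=
    mul_le_mul_of_nonneg_left d1 hKm
  have f3 : (K - 1) * (1 + p * a + (p * a) ^ 2) + (1 - (1 - p) * a + ((1 - p) * a) ^ 2) =
      K * (1 + p * (1 - p) * a ^ 2) := by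
    have h1 : (K : ℝ) - 1 = K * (1 - p) := by rw [mul_sub, hKp, mul_one]
    have h2 : (1 : ℝ) - (1 - p) * a + ((1 - p) * a) ^ 2 =
        K * p * (1 - (1 - p) * a + ((1 - p) * a) ^ 2) := by rw [hKp, one_mul]
    rw [h1, h2]
    ring
  have f4 : (K : ℝ) * (1 + p * (1 - p) * a ^ 2) ≤ K * Real.exp (a ^ 2 / K) := by
    apply mul_le_mul_of_nonneg_left _ hK0.le
    have : p * (1 - p) * a ^ 2 ≤ p * a ^ 2 := by
      have h := mul_nonneg (mul_nonneg hp0.le hp0.le) (sq_nonneg a)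
      nlinarith
    linarith
  linarith

end Pool.Agent.GNI.H71
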